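import Pool.Agent.Y229.SP1

/-!
# Project QT (helper57), job R1, part 3: the restriction of the functions of the filtration to lines
-/

set_option autoImplicit false

namespace Pool.Agent.Q92.QT

open MvPolynomial Pool.Agent.W574.SM Pool.Agent.W574.HS Pool.Agent.W574.RO Pool.Agent.Y229

section

variable {σ ι : Type}

/-- `F t = φ ^ t` times a polynomial in `t` with coefficients in the localisation at `φ` -/
def LP (φ : MvPolynomial σ ℂ) (F : ℕ → MvPolynomial σ ℂ) : Prop :=
  ∃ (N : ℕ) (P : Polynomial (MvPolynomial σ ℂ)), ∀ t : ℕ,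
    φ ^ N * F t = φ ^ t * P.eval (t : MvPolynomial σ ℂ)

theorem LP.zero (φ : MvPolynomial σ ℂ) : LP φ (fun _ => 0) :=
  ⟨0, 0, fun t => by simp⟩

theorem LP.add {φ : MvPolynomial σ ℂ} {F G : ℕ → MvPolynomial σ ℂ} (hF : LP φ F) (hG : LP φ G) :
    LP φ (fun t => F t + G t) := by
  obtain ⟨N, P, h⟩ := hF
  obtain ⟨M, Q, h'⟩ := hG
  refine ⟨N + M, Polynomial.C (φ ^ M) * P + Polynomial.C (φ ^ N) * Q, fun t => ?_⟩
  rw [Polynomial.eval_add, Polynomial.eval_mul, Polynomial.eval_mul, Polynomial.eval_C,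
    Polynomial.eval_C]
  linear_combination φ ^ M * h t + φ ^ N * h' t

theorem LP.sum {φ : MvPolynomial σ ℂ} {K : Type} (S : Finset K) (F : K → ℕ → MvPolynomial σ ℂ)
    (h : ∀ k ∈ S, LP φ (F k)) : LP φ (fun t => ∑ k ∈ S, F k t) := by
  classical
  induction S using Finset.induction_on with
  | empty => simpa using LP.zero φ
  | insert k S hk ih =>
    have h1 := (h k (Finset.mem_insert_self k S)).add
      (ih fun l hl => h l (Finset.mem_insert_of_mem hl))
    simpa only [Finset.sum_insert hk] using h1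

theorem LP.mulP {φ : MvPolynomial σ ℂ} {F : ℕ → MvPolynomial σ ℂ} (hF : LP φ F)
    (Q : Polynomial (MvPolynomial σ ℂ)) : LP φ (fun t => Q.eval (t : MvPolynomial σ ℂ) * F t) := by
  obtain ⟨N, P, h⟩ := hF
  refine ⟨N, Q * P, fun t => ?_⟩
  rw [Polynomial.eval_mul]
  linear_combination Q.eval (t : MvPolynomial σ ℂ) * h t

theorem LP.mul {φ : MvPolynomial σ ℂ} {F : ℕ → MvPolynomial σ ℂ} (hF : LP φ F)
    (r : MvPolynomial σ ℂ) : LP φ (fun t => r * F t) := by
  have := hF.mulP (Polynomial.C r)
  simpa only [Polynomial.eval_C] using this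

theorem LP.smul {φ : MvPolynomial σ ℂ} {F : ℕ → MvPolynomial σ ℂ} (hF : LP φ F)
    (r : ℂ) : LP φ (fun t => r • F t) := by
  have := hF.mul (C r)
  simpa only [C_mul'] using this

theorem exists_der (i : σ) (P : Polynomial (MvPolynomial σ ℂ)) :
    ∃ P' : Polynomial (MvPolynomial σ ℂ), ∀ t : ℕ,
      pderiv i (P.eval (t : MvPolynomial σ ℂ)) = P'.eval (t : MvPolynomial σ ℂ) := by
  induction P using Polynomial.induction_on' with
  | add p q hp hq =>
    obtain ⟨p', hp⟩ := hp
    obtain ⟨q', hq⟩ := hq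
    refine ⟨p' + q', fun t => ?_⟩
    rw [Polynomial.eval_add, Polynomial.eval_add, map_add, hp, hq]
  | monomial n r =>
    refine ⟨Polynomial.monomial n (pderiv i r), fun t => ?_⟩
    rw [Polynomial.eval_monomial, Polynomial.eval_monomial, Derivation.leibniz]
    have h1 : pderiv i ((t : MvPolynomial σ ℂ) ^ n) = 0 := by
      have h2 : (t : MvPolynomial σ ℂ) ^ n = C ((t : ℂ) ^ n) := by
        rw [map_pow, map_natCast]
      rw [h2, pderiv_C]
    rw [h1, smul_zero, zero_add, smul_eq_mul, mul_comm]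

theorem LP.pderiv {φ : MvPolynomial σ ℂ} {F : ℕ → MvPolynomial σ ℂ} (hF : LP φ F) (i : σ) :
    LP φ (fun t => MvPolynomial.pderiv i (F t)) := by
  obtain ⟨N, P, h⟩ := hF
  obtain ⟨P', hP'⟩ := exists_der i P
  refine ⟨N + 1, Polynomial.X * Polynomial.C (MvPolynomial.pderiv i φ) * P +
    Polynomial.C φ * P' - Polynomial.C ((N : MvPolynomial σ ℂ) * MvPolynomial.pderiv i φ) * P,
    fun t => ?_⟩
  have hpow : ∀ n : ℕ, φ * MvPolynomial.pderiv i (φ ^ n) =
      (n : MvPolynomial σ ℂ) * φ ^ n * MvPolynomial.pderiv i φ := by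
    intro n
    rw [Derivation.leibniz_pow, nsmul_eq_mul, smul_eq_mul]
    rcases n with _ | n
    · simp
    · rw [Nat.add_sub_cancel, pow_succ]
      ring
  have h1 := congrArg (MvPolynomial.pderiv i) (h t)
  rw [Derivation.leibniz, Derivation.leibniz, hP', smul_eq_mul, smul_eq_mul, smul_eq_mul,
    smul_eq_mul] at h1
  have h2 := hpow N
  have h3 := hpow t
  rw [Polynomial.eval_sub, Polynomial.eval_add, Polynomial.eval_mul, Polynomial.eval_mul,
    Polynomial.eval_mul, Polynomial.eval_mul, Polynomial.eval_X, Polynomial.eval_C,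
    Polynomial.eval_C, Polynomial.eval_C]
  have h4 := h t
  linear_combination φ * h1 - F t * h2 + P.eval (t : MvPolynomial σ ℂ) * h3 -
    (N : MvPolynomial σ ℂ) * MvPolynomial.pderiv i φ * h4

theorem LP.weyl {φ : MvPolynomial σ ℂ} {F : ℕ → MvPolynomial σ ℂ} (hF : LP φ F)
    (Q : weyl σ) : LP φ (fun t => (Q : Module.End ℂ (MvPolynomial σ ℂ)) (F t)) := by
  obtain ⟨Q, hQ⟩ := Q
  change LP φ (fun t => Q (F t))
  revert F
  induction hQ using Algebra.adjoin_induction with
  | mem Q hQ =>
    intro F hF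
    rcases hQ with ⟨i, rfl⟩ | ⟨i, rfl⟩
    · exact hF.mul (X i)
    · exact hF.pderiv i
  | algebraMap r =>
    intro F hF
    exact hF.smul r
  | add Q1 Q2 _ _ h1 h2 =>
    intro F hF
    exact (h1 hF).add (h2 hF)
  | mul Q1 Q2 _ _ h1 h2 =>
    intro F hF
    exact h1 (h2 hF)

/-- a function of the class with zeros at all multiples of `a` is zero -/
theorem LP.vanish {φ : MvPolynomial σ ℂ} {F : ℕ → MvPolynomial σ ℂ} (hF : LP φ F) (hφ : φ ≠ 0)
    (a : ℕ) (ha : 1 ≤ a) (h0 : ∀ t : ℕ, F (a * t) = 0) (t : ℕ) : F t = 0 := by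
  obtain ⟨N, P, h⟩ := hF
  have h1 : P = 0 := by
    apply Polynomial.eq_zero_of_infinite_isRoot
    have h2 : Function.Injective (fun t : ℕ => ((a * t : ℕ) : MvPolynomial σ ℂ)) := by
      intro x y hxy
      have : a * x = a * y := Nat.cast_injective hxy
      exact Nat.eq_of_mul_eq_mul_left (by omega) this
    refine (Set.infinite_range_of_injective h2).mono ?_
    rintro _ ⟨x, rfl⟩
    have h3 := h (a * x)
    rw [h0, mul_zero] at h3
    exact (mul_eq_zero.1 h3.symm).resolve_left (pow_ne_zero _ hφ)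
  have h2 := h t
  rw [h1, Polynomial.eval_zero, mul_zero] at h2
  exact (mul_eq_zero.1 h2).resolve_left (pow_ne_zero _ hφ)

end

section

variable {σ ι : Type} [Fintype ι]

/-- one factor of `gterm` -/
noncomputable def gf (f : MvPolynomial σ ℂ) (c : ℤ) (s : ℕ) : MvPolynomial σ ℂ :=
  C (((if c < 0 then s.choose (-c).toNat else 1 : ℕ) : ℂ)) * f ^ ((s : ℤ) + c).toNat

theorem gterm_eq (f : ι → MvPolynomial σ ℂ) (c : ι → ℤ) (s : ι → ℕ) :
    gterm f c s = ∏ j, gf (f j) (c j) (s j) := by
  unfold gterm gf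
  rw [Finset.prod_mul_distrib, Nat.cast_prod, map_prod]

theorem gf_line (f : MvPolynomial σ ℂ) (c : ℤ) (u : ℕ) : ∃ (N : ℕ) (P : Polynomial
    (MvPolynomial σ ℂ)), ∀ M : ℕ, N ≤ M → ∀ t : ℕ,
      (f ^ u) ^ M * gf f c (t * u) = (f ^ u) ^ t * (f ^ u) ^ (M - N) *
        P.eval (t : MvPolynomial σ ℂ) := by
  rcases Nat.eq_zero_or_pos u with hu | hu
  · subst hu
    refine ⟨0, Polynomial.C (gf f c 0), fun M _ t => ?_⟩
    rw [mul_zero, Polynomial.eval_C, pow_zero, one_pow, one_pow, one_pow, one_mul, one_mul,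
      one_mul]
  · by_cases hc : c < 0
    · obtain ⟨b, hb⟩ : ∃ b : ℕ, (b : ℤ) = -c := ⟨(-c).toNat, by omega⟩
      obtain ⟨D, hD⟩ : ∃ D : Polynomial (MvPolynomial σ ℂ), ∀ t : ℕ,
          C (((t * u).choose b : ℕ) : ℂ) = D.eval (t : MvPolynomial σ ℂ) := by
        refine ⟨Polynomial.C (C ((b.factorial : ℂ)⁻¹)) *
          ((descPochhammer (MvPolynomial σ ℂ) b).comp
            (Polynomial.X * Polynomial.C (u : MvPolynomial σ ℂ))), fun t => ?_⟩
        rw [Polynomial.eval_mul, Polynomial.eval_C, Polynomial.eval_comp, Polynomial.eval_mul,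
          Polynomial.eval_X, Polynomial.eval_C, ← Nat.cast_mul,
          descPochhammer_eval_eq_descFactorial, Nat.descFactorial_eq_factorial_mul_choose]
        have h1 : ((b.factorial * (t * u).choose b : ℕ) : MvPolynomial σ ℂ) =
            C ((b.factorial * (t * u).choose b : ℕ) : ℂ) := by rw [map_natCast]
        rw [h1, ← map_mul, Nat.cast_mul, ← mul_assoc, inv_mul_cancel₀
          (Nat.cast_ne_zero.2 (Nat.factorial_ne_zero b)), one_mul]
      refine ⟨b, Polynomial.C (f ^ (u * b - b)) * D, fun M hM t => ?_⟩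
      rw [Polynomial.eval_mul, Polynomial.eval_C, ← hD, gf, if_pos hc]
      have hcb : (-c).toNat = b := by omega
      rw [hcb]
      by_cases h : t * u < b
      · rw [Nat.choose_eq_zero_of_lt h, Nat.cast_zero, map_zero, zero_mul, mul_zero, mul_zero,
          mul_zero]
      · have h1 : ((↑(t * u) : ℤ) + c).toNat = t * u - b := by omega
        rw [h1]
        have h2 : b ≤ u * b := Nat.le_mul_of_pos_left b hu
        have h3 : (f ^ u) ^ M * f ^ (t * u - b) =
            (f ^ u) ^ t * (f ^ u) ^ (M - b) * f ^ (u * b - b) := by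
          rw [← pow_mul, ← pow_mul, ← pow_mul, ← pow_add, ← pow_add, ← pow_add]
          congr 1
          obtain ⟨x, rfl⟩ := Nat.exists_eq_add_of_le hM
          have h4 : u * (b + x) = u * b + u * x := Nat.mul_add u b x
          have h5 : b + x - b = x := by omega
          have h6 : t * u = u * t := Nat.mul_comm t u
          rw [h5, h4]
          omega
        linear_combination C (((t * u).choose b : ℕ) : ℂ) * h3
    · obtain ⟨e, he⟩ : ∃ e : ℕ, (e : ℤ) = c := ⟨c.toNat, by omega⟩
      refine ⟨0, Polynomial.C (f ^ e), fun M _ t => ?_⟩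
      rw [Polynomial.eval_C, gf, if_neg hc, Nat.cast_one, map_one, one_mul, Nat.sub_zero]
      have h1 : ((↑(t * u) : ℤ) + c).toNat = t * u + e := by omega
      rw [h1, pow_add, ← pow_mul, ← pow_mul, mul_comm t u]
      ring

theorem gf_LP (f : MvPolynomial σ ℂ) (c : ℤ) (u : ℕ) : LP (f ^ u) (fun t => gf f c (t * u)) := by
  obtain ⟨N, P, h⟩ := gf_line f c u
  refine ⟨N, P, fun t => ?_⟩
  rw [h N le_rfl, Nat.sub_self, pow_zero, mul_one]

omit [Fintype ι] in
theorem LP.prod {φ : ι → MvPolynomial σ ℂ} {F : ι → ℕ → MvPolynomial σ ℂ}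
    (h : ∀ j, LP (φ j) (F j)) (S : Finset ι) : LP (∏ j ∈ S, φ j) (fun t => ∏ j ∈ S, F j t) := by
  classical
  induction S using Finset.induction_on with
  | empty =>
    refine ⟨0, 1, fun t => ?_⟩
    simp
  | insert j S hj ih =>
    obtain ⟨N, P, h1⟩ := h j
    obtain ⟨M, Q, h2⟩ := ih
    refine ⟨N + M, Polynomial.C (φ j ^ M * (∏ j ∈ S, φ j) ^ N) * (P * Q), fun t => ?_⟩
    beta_reduce at h2 ⊢
    rw [Finset.prod_insert hj, Finset.prod_insert hj, Polynomial.eval_mul, Polynomial.eval_mul,
      Polynomial.eval_C, mul_pow, mul_pow]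
    have h2 := h2 t
    linear_combination (φ j ^ M * (∏ j ∈ S, φ j) ^ N * (∏ j ∈ S, φ j) ^ M * ∏ j ∈ S, F j t) * h1 t +
      (φ j ^ M * (∏ j ∈ S, φ j) ^ N * φ j ^ t * P.eval (t : MvPolynomial σ ℂ)) * h2

theorem V_LP (f : ι → MvPolynomial σ ℂ) (m : ℤ) (u : ι → ℕ) {F : AF σ ι} (hF : F ∈ V f m) :
    LP (∏ j, f j ^ u j) (fun t => F (t • u)) := by
  induction hF using Submodule.span_induction with
  | mem F h =>
    obtain ⟨P, c, -, rfl⟩ := h
    have h1 : ∀ t : ℕ, gen f P c (t • u) = ∑ β ∈ P.support,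
        (∏ j, (Polynomial.X * Polynomial.C (u j : MvPolynomial σ ℂ)) ^ β j).eval
          (t : MvPolynomial σ ℂ) *
        ((P β : Pool.Agent.W574.SM.weyl σ) : Module.End ℂ (MvPolynomial σ ℂ))
          (gterm f c (t • u)) := by
      intro t
      rw [gen, applyAt, Finsupp.sum]
      refine Finset.sum_congr rfl fun β _ => ?_
      rw [← C_mul']
      congr 1
      rw [Polynomial.eval_prod, map_prod]
      refine Finset.prod_congr rfl fun j _ => ?_
      rw [Polynomial.eval_pow, Polynomial.eval_mul, Polynomial.eval_X, Polynomial.eval_C, map_pow,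
        Pi.smul_apply, smul_eq_mul, Nat.cast_mul, map_mul, map_natCast, map_natCast]
    simp only [h1]
    refine LP.sum _ _ fun β _ => LP.mulP (LP.weyl ?_ (P β)) _
    simp only [gterm_eq]
    exact LP.prod (fun j => gf_LP (f j) (c j) (u j)) Finset.univ
  | zero => exact LP.zero _
  | add F G _ _ hF hG => exact hF.add hG
  | smul r F _ hF => exact hF.smul r

/-- the restriction to the exponents with `f ^ s ≠ 0` -/
noncomputable def cut (f : ι → MvPolynomial σ ℂ) (F : AF σ ι) : AF σ ι := by
  classical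
  exact fun s => if ∏ j, f j ^ s j = 0 then 0 else F s

theorem cut_mem (f : ι → MvPolynomial σ ℂ) (m : ℤ) {F : AF σ ι} (hF : F ∈ V f m) :
    cut f F ∈ V f m := by
  classical
  induction hF using Submodule.span_induction with
  | mem F h =>
    obtain ⟨P, c, hc, rfl⟩ := h
    by_cases h : ∀ j, f j = 0 → c j = 0
    · have h1 : cut f (gen f P c) = gen f P c := by
        funext s
        unfold cut
        split_ifs with h2
        · obtain ⟨j, -, hj⟩ := Finset.prod_eq_zero_iff.1 h2
          have h3 : f j = 0 := by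
            refine (pow_eq_zero_iff (n := s j) ?_).1 hj
            intro h5
            rw [h5, pow_zero] at hj
            exact one_ne_zero hj
          have h4 : gterm f c s = 0 := by
            rw [gterm_eq]
            refine Finset.prod_eq_zero (Finset.mem_univ j) ?_
            rw [gf, h j h3, if_neg (lt_irrefl _), add_zero, Int.toNat_natCast, hj, mul_zero]
          rw [gen, h4, applyAt]
          simp
        · rfl
      rw [h1]
      exact gen_mem f P c hc
    · push Not at h
      obtain ⟨j, hj1, hj2⟩ := h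
      have h1 : cut f (gen f P c) = 0 := by
        funext s
        unfold cut
        split_ifs with h2
        · rfl
        · have h3 : s j = 0 := by
            by_contra h4
            exact h2 (Finset.prod_eq_zero (Finset.mem_univ j) (by rw [hj1, zero_pow h4]))
          have h4 : gterm f c s = 0 := by
            rw [gterm_eq]
            refine Finset.prod_eq_zero (Finset.mem_univ j) ?_
            rw [gf, h3, hj1]
            rcases lt_or_gt_of_ne hj2 with h5 | h5
            · rw [if_pos h5, Nat.choose_eq_zero_of_lt (by omega)]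
              simp
            · rw [zero_pow (by omega), mul_zero]
          rw [gen, h4, applyAt]
          simp
      rw [h1]
      exact Submodule.zero_mem _
  | zero =>
    have : cut f (0 : AF σ ι) = 0 := by
      funext s
      unfold cut
      split_ifs <;> rfl
    rw [this]
    exact Submodule.zero_mem _
  | add F G _ _ hF hG =>
    have : cut f (F + G) = cut f F + cut f G := by
      funext s
      rw [Pi.add_apply]
      unfold cut
      split_ifs
      · rw [add_zero]
      · rfl
    rw [this]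
    exact Submodule.add_mem _ hF hG
  | smul r F _ hF =>
    have : cut f (r • F) = r • cut f F := by
      funext s
      rw [Pi.smul_apply]
      unfold cut
      split_ifs
      · rw [smul_zero]
      · rfl
    rw [this]
    exact Submodule.smul_mem _ _ hF

end

end Pool.Agent.Q92.QT
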