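import Pool.Agent.Q92.QT.Tf
import Pool.Agent.Q92.QT.Line

/-!
# Project QT (helper57), job R1, part 4: the roots for the powers of an ideal
-/

set_option autoImplicit false

namespace Pool.Agent.Q92.QT

open MvPolynomial Pool.Agent.W574.SM Pool.Agent.W574.HS Pool.Agent.W574.RO Pool.Agent.Y229

section

variable {σ J : Type} [Fintype J] [DecidableEq J] {a : ℕ}

/-- the generators of the power `I ^ a` -/
noncomputable def gpow (a : ℕ) (f : J → MvPolynomial σ ℂ) (κ : Fin a → J) : MvPolynomial σ ℂ :=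
  ∏ i, f (κ i)

/-- the sum over the exponents with given multiplicities -/
noncomputable def Psi (a m : ℕ) (u : J → ℕ) (F : AF σ (Fin a → J)) : MvPolynomial σ ℂ :=
  ∑ s ∈ fib a m u, (Nat.multinomial Finset.univ s : ℂ) • F s

theorem Psi_add (m : ℕ) (u : J → ℕ) (F G : AF σ (Fin a → J)) :
    Psi a m u (F + G) = Psi a m u F + Psi a m u G := by
  unfold Psi
  simp only [Pi.add_apply, smul_add, Finset.sum_add_distrib]

theorem Psi_smul (m : ℕ) (u : J → ℕ) (r : ℂ) (F : AF σ (Fin a → J)) :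
    Psi a m u (r • F) = r • Psi a m u F := by
  unfold Psi
  rw [Finset.smul_sum]
  refine Finset.sum_congr rfl fun s _ => ?_
  rw [Pi.smul_apply, smul_comm]

theorem Psi_zero (m : ℕ) (u : J → ℕ) : Psi a m u (0 : AF σ (Fin a → J)) = 0 := by
  unfold Psi
  simp

theorem Psi_Tf (ha : 1 ≤ a) (f : J → MvPolynomial σ ℂ) (Q : weyl σ) (b e : (Fin a → J) → ℕ)
    (m : ℕ) (u : J → ℕ) (hu : ∑ j, u j = a * m) :
    ((cpol a (∑ κ, b κ)).eval ((a * m : ℕ) : ℂ) * (a : ℂ) ^ (∑ κ, b κ)) •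
      Psi a m u (Tf (gpow a f) Q b e) =
      (Nat.multinomial Finset.univ u : ℂ) • Tf f Q (mlt b) (mlt e) u := by
  have h1 : ∀ s ∈ fib a m u, (Nat.multinomial Finset.univ s : ℂ) • Tf (gpow a f) Q b e s =
      ((Nat.multinomial Finset.univ s * fd s b : ℕ) : ℂ) •
        (Q : Module.End ℂ (MvPolynomial σ ℂ)) (∏ j, f j ^ (u j - mlt b j + mlt e j)) := by
    intro s hs
    rw [Tf, smul_smul, ← Nat.cast_mul]
    by_cases h0 : fd s b = 0
    · rw [h0, mul_zero, Nat.cast_zero, zero_smul, zero_smul]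
    · have hle : b ≤ s := fun κ => fd_ne h0 κ
      congr 2
      have h2 : ∀ κ, s κ - b κ + e κ = (s - b + e) κ := fun κ => rfl
      simp only [h2, gpow]
      rw [prod_mlt, mlt_add, mlt_sub hle, (mem_fib.1 hs).2]
      rfl
  rw [Psi, Finset.sum_congr rfl h1, ← Finset.sum_smul, ← Nat.cast_sum, smul_smul,
    sum_fib_cpol ha m u b hu, Tf, smul_smul, Nat.cast_mul]

theorem Psi_G0 (f : J → MvPolynomial σ ℂ) (B : Polynomial (MvPolynomial σ ℂ))
    (m : ℕ) (u : J → ℕ) (hu : ∑ j, u j = a * m) :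
    Psi a m u (mulB B (G0 (gpow a f))) =
      (Nat.multinomial Finset.univ u : ℂ) • (B.eval (C (m : ℂ)) * G0 f u) := by
  have h1 : ∀ s ∈ fib a m u, (Nat.multinomial Finset.univ s : ℂ) • mulB B (G0 (gpow a f)) s =
      (Nat.multinomial Finset.univ s : ℂ) • (B.eval (C (m : ℂ)) * G0 f u) := by
    intro s hs
    obtain ⟨h2, h3⟩ := mem_fib.1 hs
    rw [mulB, h2]
    congr 2
    simp only [G0, gpow]
    rw [prod_mlt, h3]
  rw [Psi, Finset.sum_congr rfl h1, ← Finset.sum_smul, ← Nat.cast_sum, sum_fib m u hu]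

theorem claim (ha : 1 ≤ a) (f : J → MvPolynomial σ ℂ) (α : ℂ) (hα : ∀ k : ℕ, α ≠ k)
    {G : AF σ (Fin a → J)} (hG : G ∈ V (gpow a f) 1) :
    ∃ c : Polynomial ℂ, c.eval α ≠ 0 ∧ ∃ G' ∈ V f a, ∀ (m : ℕ) (u : J → ℕ), ∑ j, u j = a * m →
      c.eval ((a * m : ℕ) : ℂ) • Psi a m u G = (Nat.multinomial Finset.univ u : ℂ) • G' u := by
  have hG' := V_le_Ws _ _ hG
  clear hG
  induction hG' using Submodule.span_induction with
  | mem F h =>
    obtain ⟨Q, b, e, hc, rfl⟩ := h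
    have ha0 : (a : ℂ) ≠ 0 := Nat.cast_ne_zero.2 (by omega)
    refine ⟨cpol a (∑ κ, b κ) * Polynomial.C ((a : ℂ) ^ (∑ κ, b κ)), ?_, Tf f Q (mlt b) (mlt e),
      Tf_mem f Q _ _ _ rfl _ ?_, fun m u hu => ?_⟩
    · rw [Polynomial.eval_mul, Polynomial.eval_C]
      exact mul_ne_zero (cpol_eval_ne _ α hα) (pow_ne_zero _ ha0)
    · have h1 : (∑ j, (mlt e j : ℤ)) = a * ∑ κ, (e κ : ℤ) := by
        have := mlt_sum (a := a) e
        exact_mod_cast this
      have h2 : (∑ j, (mlt b j : ℤ)) = a * ∑ κ, (b κ : ℤ) := by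
        have := mlt_sum (a := a) b
        exact_mod_cast this
      rw [h1, h2, ← mul_sub, hc, mul_one]
    · rw [Polynomial.eval_mul, Polynomial.eval_C]
      exact Psi_Tf ha f Q b e m u hu
  | zero =>
    refine ⟨1, by rw [Polynomial.eval_one]; exact one_ne_zero, 0, Submodule.zero_mem _,
      fun m u _ => ?_⟩
    rw [Psi_zero, smul_zero, Pi.zero_apply, smul_zero]
  | add F G _ _ hF hG =>
    obtain ⟨c1, h1, G1, m1, e1⟩ := hF
    obtain ⟨c2, h2, G2, m2, e2⟩ := hG
    refine ⟨c1 * c2, by rw [Polynomial.eval_mul]; exact mul_ne_zero h1 h2,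
      mulB (c2.map C) G1 + mulB (c1.map C) G2, Submodule.add_mem _ (mulB_mem f _ _ _ m1)
        (mulB_mem f _ _ _ m2), fun m u hu => ?_⟩
    rw [Psi_add, smul_add, Polynomial.eval_mul, Pi.add_apply, smul_add, mulB, mulB, hu, eval_mapC,
      eval_mapC, C_mul', C_mul', smul_comm _ (c2.eval _) (G1 u), smul_comm _ (c1.eval _) (G2 u),
      ← e1 m u hu, ← e2 m u hu, smul_smul, smul_smul, mul_comm (c2.eval _)]
  | smul r F _ hF =>
    obtain ⟨c1, h1, G1, m1, e1⟩ := hF
    refine ⟨c1, h1, r • G1, Submodule.smul_mem _ _ m1, fun m u hu => ?_⟩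
    rw [Psi_smul, smul_comm, e1 m u hu, Pi.smul_apply, smul_comm]

omit [DecidableEq J] in
theorem G0_LP (f : J → MvPolynomial σ ℂ) (B : Polynomial (MvPolynomial σ ℂ)) (u : J → ℕ) :
    LP (∏ j, f j ^ u j) (fun t => mulB B (G0 f) (t • u)) := by
  refine ⟨0, B.comp (Polynomial.X * Polynomial.C ((∑ j, u j : ℕ) : MvPolynomial σ ℂ)),
    fun t => ?_⟩
  beta_reduce
  rw [pow_zero, one_mul, mulB, Polynomial.eval_comp, Polynomial.eval_mul, Polynomial.eval_X,
    Polynomial.eval_C, mul_comm (_ ^ t)]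
  congr 1
  · congr 1
    simp only [Pi.smul_apply, smul_eq_mul]
    rw [← Finset.mul_sum, map_natCast, Nat.cast_mul]
  · simp only [G0, Pi.smul_apply, smul_eq_mul]
    rw [← Finset.prod_pow]
    refine Finset.prod_congr rfl fun j _ => ?_
    rw [← pow_mul, mul_comm]

/-- **The roots for the powers of an ideal.** -/
theorem sf_gpow (f : J → MvPolynomial σ ℂ) (ha : 1 ≤ a) (p : σ → ℂ) (α : ℂ)
    (hα : ∀ k : ℕ, α ≠ k) (h : SF f p α) : SF (gpow a f) p (α / a) := by
  intro B hB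
  have ha0 : (a : ℂ) ≠ 0 := Nat.cast_ne_zero.2 (by omega)
  obtain ⟨c, hc, G', hG', hr⟩ := claim ha f α hα hB
  set B' : Polynomial (MvPolynomial σ ℂ) :=
    c.map C * B.comp (Polynomial.X * Polynomial.C (C (a : ℂ)⁻¹)) with hB'
  have hev : ∀ z : ℂ, B'.eval (C z) = C (c.eval z) * B.eval (C (z / a)) := by
    intro z
    rw [hB', Polynomial.eval_mul, eval_mapC, Polynomial.eval_comp, Polynomial.eval_mul,
      Polynomial.eval_X, Polynomial.eval_C, ← map_mul, div_eq_mul_inv]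
  have hzero : ∀ (m : ℕ) (u : J → ℕ), ∑ j, u j = a * m → mulB B' (G0 f) u = G' u := by
    intro m u hu
    have h1 := hr m u hu
    rw [Psi_G0 f B m u hu, smul_comm] at h1
    have h2 : (Nat.multinomial Finset.univ u : ℂ) ≠ 0 :=
      Nat.cast_ne_zero.2 (Nat.multinomial_pos _ _).ne'
    have h3 := smul_right_injective (MvPolynomial σ ℂ) h2 h1
    rw [← h3, mulB, hu, hev, C_mul', smul_mul_assoc]
    congr 4
    push_cast
    rw [mul_div_cancel_left₀ _ ha0]
  have hmem : mulB B' (G0 f) = cut f G' := by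
    funext u
    unfold cut
    split_ifs with h0
    · rw [mulB]
      have : G0 f u = 0 := h0
      rw [this, mul_zero]
    · have h1 : LP (∏ j, f j ^ u j) (fun t => mulB B' (G0 f) (t • u) + (-1 : ℂ) • G' (t • u)) :=
        (G0_LP f B' u).add ((V_LP f a u hG').smul (-1))
      have h2 := h1.vanish h0 a ha (fun t => by
        have h3 : ∑ j, ((a * t) • u) j = a * (t * ∑ j, u j) := by
          simp only [Pi.smul_apply, smul_eq_mul]
          rw [← Finset.mul_sum, mul_assoc]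
        rw [hzero _ _ h3, neg_one_smul, add_neg_cancel]) 1
      rw [one_smul, neg_one_smul, add_neg_eq_zero] at h2
      exact h2
  have hV : mulB B' (G0 f) ∈ V f 1 := by
    rw [hmem]
    exact V_le f a (by exact_mod_cast ha) (cut_mem f a hG')
  have h1 := h B' hV
  rw [hev, map_mul, eval_C] at h1
  exact (mul_eq_zero.1 h1).resolve_left hc

end

end Pool.Agent.Q92.QT
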