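import Pool.Agent.Q57.QT.Stm
import Pool.Agent.Q92.QT.Root

/-!
# Project QT (helper57), job R1
-/

set_option autoImplicit false

namespace Pool.Agent.Q92.QT

/-- Job R1. -/
theorem qt_powsf : Pool.Agent.Q57.QT.StPowSF := by
  intro σ J _ _ _ _ f a ha p α hα h
  exact sf_gpow f ha p α hα h

end Pool.Agent.Q92.QT
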