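import Pool.Agent.Q57.QT.Stm
import Pool.Agent.Q57.MC.One
import Pool.Agent.TH192.DT.Strict2

/-!
# Project QT (helper57), job R2: the roots for products of powers of the `∑ y_(t, j) f_(t, j)`
-/

set_option autoImplicit false
set_option linter.unusedSectionVars false

namespace Pool.Agent.Q92.QT

open Pool.Agent.W574.SM Pool.Agent.W574.HS Pool.Agent.W574.RO Pool.Agent.Y229
open Pool.Agent.TH192.DT
open Pool.Agent.W574.LM (IsLocEq)
open Pool.Agent.Q57.MC (eval_hat eq_of_locEq1)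

section unit

variable {σ ι : Type} [Fintype ι] [DecidableEq ι]

theorem not_sf_of_one (F : ι → MvPolynomial σ ℂ) (j : ι) (hj : F j = 1) (p : σ → ℂ) (α : ℂ) :
    ¬ SF F p α := by
  classical
  intro h
  have h1 : mulB 1 (G0 F) ∈ V F 1 := by
    have h2 : mulB 1 (G0 F) = Pool.Agent.W574.RO.gen F (Finsupp.single 0 1) (Pi.single j 1) := by
      rw [mulB_one]
      funext s
      rw [Pool.Agent.W574.RO.gen, applyAt_single, G0, gterm]
      have h3 : (∏ i, (if (Pi.single j 1 : ι → ℤ) i < 0 then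
          (s i).choose (-(Pi.single j 1 : ι → ℤ) i).toNat else 1)) = 1 := by
        refine Finset.prod_eq_one fun i _ => ?_
        rw [if_neg]
        by_cases hi : i = j
        · subst hi
          rw [Pi.single_eq_same]
          norm_num
        · rw [Pi.single_eq_of_ne hi]
          norm_num
      have h4 : ∏ i, F i ^ ((s i : ℤ) + (Pi.single j 1 : ι → ℤ) i).toNat = ∏ i, F i ^ s i := by
        refine Finset.prod_congr rfl fun i _ => ?_
        by_cases hi : i = j
        · subst hi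
          rw [hj, one_pow, one_pow]
        · rw [Pi.single_eq_of_ne hi, add_zero, Int.toNat_natCast]
      rw [h3, h4]
      simp
    rw [h2]
    refine gen_mem F _ _ ?_
    rw [Finset.sum_pi_single']
    simp
  have h5 := h 1 h1
  rw [Polynomial.eval_one, map_one] at h5
  exact one_ne_zero h5

end unit

section Strict

variable {σ τ : Type} [Fintype σ] [DecidableEq σ] [Fintype τ] [DecidableEq τ] {κ : τ → Type}
  [∀ t, Fintype (κ t)] [∀ t, DecidableEq (κ t)]

/-- A good point on the strict transform of the form `t0`. -/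
theorem exists_point' (f : (t : τ) → κ t → MvPolynomial σ ℂ) (hf : ∀ t, ∃ j, f t j ≠ 0)
    (t0 : τ) (H : MvPolynomial ((Σ t, κ t) ⊕ σ) ℂ) (p : σ → ℂ)
    (hH : MvPolynomial.eval (Sum.elim 0 p) H ≠ 0) :
    ∃ (v : (Σ t, κ t) ⊕ σ → ℂ) (j0 : κ t0), (∀ j, v (Sum.inl ⟨t0, j⟩) = 0) ∧
      MvPolynomial.eval (fun i => v (Sum.inr i)) (f t0 j0) ≠ 0 ∧
      (∀ t, t ≠ t0 → MvPolynomial.eval v (blockForm f t) ≠ 0) ∧ MvPolynomial.eval v H ≠ 0 := by
  classical
  obtain ⟨j0, hj0⟩ := hf t0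
  set φ : (Σ t, κ t) ⊕ σ → MvPolynomial ((Σ t, κ t) ⊕ σ) ℂ :=
    Sum.elim (fun q => if q.1 = t0 then 0 else MvPolynomial.X (Sum.inl q))
      (fun i => MvPolynomial.X (Sum.inr i)) with hφ
  have h1 : MvPolynomial.aeval φ H ≠ 0 := by
    intro h
    apply hH
    have h2 := congrArg (MvPolynomial.eval (Sum.elim 0 p : (Σ t, κ t) ⊕ σ → ℂ)) h
    rw [← eval_eval, map_zero] at h2
    rw [← h2]
    congr 2
    funext i
    rcases i with q | i
    · rw [hφ, Sum.elim_inl, Sum.elim_inl]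
      split_ifs <;> simp
    · rw [hφ, Sum.elim_inr, Sum.elim_inr]
      simp
  have h2 : MvPolynomial.rename (Sum.inr : σ → (Σ t, κ t) ⊕ σ) (f t0 j0) ≠ 0 := by
    intro h
    exact hj0 (MvPolynomial.rename_injective _ Sum.inr_injective (by rw [h, map_zero]))
  have h3 : ∏ t ∈ Finset.univ.erase t0, blockForm f t ≠ 0 :=
    Finset.prod_ne_zero_iff.2 fun t _ => blockForm_ne f t (hf t)
  obtain ⟨v', hv'⟩ : ∃ v', MvPolynomial.eval v' (MvPolynomial.aeval φ H *
      (MvPolynomial.rename Sum.inr (f t0 j0) * ∏ t ∈ Finset.univ.erase t0, blockForm f t))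
      ≠ 0 := by
    by_contra hcon
    push Not at hcon
    exact mul_ne_zero h1 (mul_ne_zero h2 h3) (MvPolynomial.funext fun v => by
      rw [hcon v, map_zero])
  rw [map_mul, map_mul, map_prod] at hv'
  have hv1 := left_ne_zero_of_mul hv'
  have hv2 := left_ne_zero_of_mul (right_ne_zero_of_mul hv')
  have hv3 := Finset.prod_ne_zero_iff.1 (right_ne_zero_of_mul (right_ne_zero_of_mul hv'))
  refine ⟨fun i => MvPolynomial.eval v' (φ i), j0, fun j => ?_, ?_, fun t ht => ?_, ?_⟩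
  · have h6 : φ (Sum.inl ⟨t0, j⟩) = 0 := by rw [hφ, Sum.elim_inl, if_pos rfl]
    beta_reduce
    rw [h6, map_zero]
  · rw [MvPolynomial.eval_rename] at hv2
    have h6 : (fun i => MvPolynomial.eval v' (φ (Sum.inr i))) = v' ∘ Sum.inr := by
      funext i
      rw [hφ, Sum.elim_inr, MvPolynomial.eval_X]
      rfl
    beta_reduce
    rw [h6]
    exact hv2
  · have h6 : (fun i => MvPolynomial.eval v' (φ i)) ∘ Sum.inr = v' ∘ Sum.inr := by
      funext i
      rw [Function.comp_apply, hφ, Sum.elim_inr, MvPolynomial.eval_X]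
      rfl
    have h4 : MvPolynomial.eval (fun i => MvPolynomial.eval v' (φ i)) (blockForm f t)
        = MvPolynomial.eval v' (blockForm f t) := by
      rw [blockForm, map_sum, map_sum]
      refine Finset.sum_congr rfl fun j _ => ?_
      rw [map_mul, map_mul, MvPolynomial.eval_X, MvPolynomial.eval_X, MvPolynomial.eval_rename,
        MvPolynomial.eval_rename, h6]
      congr 1
      rw [hφ, Sum.elim_inl, if_neg ht, MvPolynomial.eval_X]
    rw [h4]
    exact hv3 t (Finset.mem_erase.2 ⟨ht, Finset.mem_univ t⟩)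
  · rw [eval_eval]
    exact hv1

open MvPowerSeries in
/-- **The roots which come from the strict transforms.** -/
theorem strict_root' (f : (t : τ) → κ t → MvPolynomial σ ℂ) (t0 : τ) (a : τ → ℕ)
    (hne : ∀ t, ∃ j, f t j ≠ 0) (b : Polynomial ℂ) (H : MvPolynomial ((Σ t, κ t) ⊕ σ) ℂ)
    (p : σ → ℂ) (hH : MvPolynomial.eval (Sum.elim 0 p) H ≠ 0)
    (hb : IsLocEq H (fun _ : Unit => powProd a f) b) (l : ℕ) (hl : l < a t0) :
    b.eval (-(1 + (l : ℂ)) / a t0) = 0 := by
  classical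
  obtain ⟨v, j0, hv0, hvf, hvt, hvH⟩ := exists_point' f hne t0 H p hH
  have hcc : ∀ p, constantCoeff (MvPolynomial.aeval (chartV f v t0 j0) p)
      = MvPolynomial.eval v p := by
    intro p
    rw [cc_aeval_eval]
    simp only [cc_chartV f v t0 j0 hv0]
  have hU0 : constantCoeff (valX v (f t0 j0))⁻¹ ≠ 0 := by
    rw [MvPowerSeries.constantCoeff_inv, cc_valX]
    exact inv_ne_zero hvf
  have hpow : MvPolynomial.aeval (chartV f v t0 j0) (powProd a f)
      = X (Sum.inl ⟨t0, j0⟩) ^ a t0 * ∏ t ∈ Finset.univ.erase t0,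
        MvPolynomial.aeval (chartV f v t0 j0) (blockForm f t) ^ a t := by
    rw [powProd, map_prod, ← Finset.mul_prod_erase _ _ (Finset.mem_univ t0), map_pow,
      chart_form f v t0 j0 hv0 hvf]
    congr 1
    exact Finset.prod_congr rfl fun t _ => by rw [map_pow]
  have h := rees_rootL' (fun _ : Unit => powProd a f) b H hb
    (Sum.inl ⟨t0, j0⟩)
    (chartV f v t0 j0) (by rw [hcc]; exact hvH) 0 (a t0) l hl (valX v (f t0 j0))⁻¹
    (∏ t ∈ Finset.univ.erase t0, MvPolynomial.aeval (chartV f v t0 j0) (blockForm f t) ^ a t) 1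
    hU0 (by
      rw [map_prod]
      refine Finset.prod_ne_zero_iff.2 fun t ht => ?_
      rw [map_pow, hcc]
      exact pow_ne_zero _ (hvt t (Finset.ne_of_mem_erase ht)))
    (by simp) (chart_jac f v t0 j0 hvf) () (fun _ => ⟨_, hpow⟩) hpow (blockForm f t0 ^ l)
    (by rw [map_pow, chart_form f v t0 j0 hv0 hvf, mul_one])
    (fun t ht => Or.inl ⟨MvPolynomial.X t - MvPolynomial.C (v t), by
      rw [map_sub, MvPolynomial.aeval_X, MvPolynomial.aeval_C, chartV_ne f v t0 j0 t ht, shiftV]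
      have h5 : algebraMap ℂ (MvPowerSeries ((Σ t, κ t) ⊕ σ) ℂ) (v t) = MvPowerSeries.C (v t) :=
        rfl
      rw [h5, add_sub_cancel_left]
      refine ⟨constantCoeff_X t, ?_, ?_⟩
      · rw [coeff_X, if_pos rfl]; exact one_ne_zero
      · intro l _ hl
        rw [coeff_X, if_neg]
        intro h6
        exact hl (Finsupp.single_left_injective one_ne_zero h6)⟩)
  rw [← h]
  congr 1
  push_cast
  ring

theorem sf_powProd (f : (t : τ) → κ t → MvPolynomial σ ℂ) (a : τ → ℕ)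
    (hf : ∀ t, ∃ j, f t j ≠ 0) (t0 : τ) (ht0 : a t0 ≠ 0) (p : σ → ℂ) (α : ℂ)
    (h : SF (prodFam fun q : Σ t, Fin (a t) => f q.1) p α) :
    SF (fun _ : Fin 1 => powProd a f) (Sum.elim 0 p) α := by
  classical
  refine sf_of_local _ _ α (fun H b hb hH => ?_) (exists_fe _ ⟨0, powProd_ne a f hf⟩)
  obtain ⟨P, hP⟩ := eq_of_locEq1 H _ b hb
  refine h.locEq _ b (locEq_of_powProd a f t0 ht0 b H P hP) ?_
  rw [eval_hat]
  exact hH

theorem sf_strict (f : (t : τ) → κ t → MvPolynomial σ ℂ) (a : τ → ℕ)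
    (hf : ∀ t, ∃ j, f t j ≠ 0) (t0 : τ) (ht0 : 1 ≤ a t0) (p : σ → ℂ) :
    SF (fun _ : Fin 1 => powProd a f) (Sum.elim 0 p) (-1 / (a t0 : ℂ)) := by
  classical
  refine sf_of_local _ _ _ (fun H b hb hH => ?_) (exists_fe _ ⟨0, powProd_ne a f hf⟩)
  obtain ⟨P, hP⟩ := eq_of_locEq1 H _ b hb
  have h1 := strict_root' f t0 a hf b H p hH (isLocEq_single _ H b P hP) 0 (by omega)
  rw [Nat.cast_zero, add_zero] at h1
  exact h1

end Strict

theorem prodY_eq {σ : Type} {T r : ℕ} (a : Fin T → ℕ) (f : Fin T → Fin r → MvPolynomial σ ℂ) :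
    Pool.Agent.Q57.QT.prodY a f =
      MvPolynomial.rename (Equiv.sumCongr (Equiv.sigmaEquivProd (Fin T) (Fin r)) (Equiv.refl σ))
        (powProd (κ := fun _ => Fin r) a f) := by
  rw [Pool.Agent.Q57.QT.prodY, powProd, map_prod]
  refine Finset.prod_congr rfl fun t _ => ?_
  rw [map_pow, blockForm, map_sum]
  congr 1
  refine Finset.sum_congr rfl fun j _ => ?_
  rw [map_mul, MvPolynomial.rename_X, MvPolynomial.rename_rename]
  rfl

theorem sf_prodY {σ : Type} {T r : ℕ} (a : Fin T → ℕ) (f : Fin T → Fin r → MvPolynomial σ ℂ)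
    (p : σ → ℂ) (α : ℂ)
    (h : SF (fun _ : Fin 1 => powProd (κ := fun _ => Fin r) a f) (Sum.elim 0 p) α) :
    SF (fun _ : Fin 1 => Pool.Agent.Q57.QT.prodY a f) (Sum.elim 0 p) α := by
  classical
  refine sf_equiv (Equiv.sumCongr (Equiv.sigmaEquivProd (Fin T) (Fin r)) (Equiv.refl σ))
    (Equiv.refl (Fin 1)) (fun _ : Fin 1 => powProd (κ := fun _ => Fin r) a f) _
    (fun _ => prodY_eq a f) _ _ ?_
  have h1 : ((Sum.elim (0 : Fin T × Fin r → ℂ) p : (Fin T × Fin r) ⊕ σ → ℂ) ∘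
      (Equiv.sumCongr (Equiv.sigmaEquivProd (Fin T) (Fin r)) (Equiv.refl σ))) = Sum.elim (0 : (Σ _ : Fin T, Fin r) → ℂ) p := by
    funext i
    rcases i with q | i <;> rfl
  rw [h1]
  exact h

/-- Job R2. -/
theorem qt_prodsf : Pool.Agent.Q57.QT.StProdSF := by
  intro n T r a ha f hf p
  refine ⟨fun α h => ?_, fun t => ?_⟩
  · apply sf_prodY
    rcases Nat.eq_zero_or_pos T with hT | hT
    · exfalso
      subst hT
      have : IsEmpty (Σ t : Fin 0, Fin (a t)) := ⟨fun q => q.1.elim0⟩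
      refine not_sf_of_one _ (fun q => q.1.elim0) ?_ p α h
      rw [Pool.Agent.Q57.QT.powF]
      exact Finset.prod_of_isEmpty _
    · have h1 := ha ⟨0, hT⟩
      exact sf_powProd (κ := fun _ => Fin r) f a hf ⟨0, hT⟩ (by omega) p α h
  · exact sf_prodY a f p _ (sf_strict (κ := fun _ => Fin r) f a hf t (ha t) p)

end Pool.Agent.Q92.QT
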