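import Mathlib

/-!
# Project QT (helper57), job R1, part 2: sums of multinomial coefficients
-/

set_option autoImplicit false

namespace Pool.Agent.Q92.QT

open Finset

section

variable {ι : Type} [Fintype ι]

/-- products of falling factorials -/
def fd (s b : ι → ℕ) : ℕ := ∏ j, (s j).descFactorial (b j)

theorem fd_ne {s b : ι → ℕ} (h : fd s b ≠ 0) (j : ι) : b j ≤ s j := by
  by_contra hc
  apply h
  refine Finset.prod_eq_zero (Finset.mem_univ j) ?_
  rw [Nat.descFactorial_eq_zero_iff_lt]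
  exact not_le.1 hc

theorem fd_eq_zero {s b : ι → ℕ} (h : ¬ b ≤ s) : fd s b = 0 := by
  by_contra h2
  exact h fun j => fd_ne h2 j

theorem sum_sub' {s b : ι → ℕ} (h : b ≤ s) : ∑ j, (s - b) j = ∑ j, s j - ∑ j, b j := by
  simp only [Pi.sub_apply]
  rw [Finset.sum_tsub_distrib _ fun j _ => h j]

theorem mult_fd {s b : ι → ℕ} (h : b ≤ s) :
    Nat.multinomial univ s * fd s b =
      (∑ j, s j).descFactorial (∑ j, b j) * Nat.multinomial univ (s - b) := by
  have h1 := Nat.multinomial_spec univ s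
  have h2 := Nat.multinomial_spec univ (s - b)
  rw [sum_sub' h] at h2
  have h3 : ∏ j, (s j).factorial = fd s b * ∏ j, ((s - b) j).factorial := by
    rw [fd, ← Finset.prod_mul_distrib]
    refine Finset.prod_congr rfl fun j _ => ?_
    rw [Pi.sub_apply, mul_comm, Nat.factorial_mul_descFactorial (h j)]
  have h4 : (∑ j, s j).factorial =
      (∑ j, s j - ∑ j, b j).factorial * (∑ j, s j).descFactorial (∑ j, b j) :=
    (Nat.factorial_mul_descFactorial (Finset.sum_le_sum fun j _ => h j)).symm
  have h5 : 0 < ∏ j, ((s - b) j).factorial := Finset.prod_pos fun j _ => Nat.factorial_pos _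
  apply Nat.eq_of_mul_eq_mul_left h5
  calc (∏ j, ((s - b) j).factorial) * (Nat.multinomial univ s * fd s b)
      = (∏ j, (s j).factorial) * Nat.multinomial univ s := by rw [h3]; ring
    _ = (∑ j, s j - ∑ j, b j).factorial * (∑ j, s j).descFactorial (∑ j, b j) := by rw [h1, h4]
    _ = (∏ j, ((s - b) j).factorial) *
        ((∑ j, s j).descFactorial (∑ j, b j) * Nat.multinomial univ (s - b)) := by
      rw [← h2]; ring

end

section

variable {J : Type} [Fintype J] [DecidableEq J] {a : ℕ}

/-- the number of `i` with `κ i = j` -/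
def cnt (κ : Fin a → J) (j : J) : ℕ := ∑ i, if κ i = j then 1 else 0

theorem cnt_sum (κ : Fin a → J) : ∑ j, cnt κ j = a := by
  unfold cnt
  rw [Finset.sum_comm]
  simp

/-- the multiplicities of the members of `J` in a multiset of words -/
def mlt (s : (Fin a → J) → ℕ) (j : J) : ℕ := ∑ κ, s κ * cnt κ j

theorem mlt_sum (s : (Fin a → J) → ℕ) : ∑ j, mlt s j = a * ∑ κ, s κ := by
  unfold mlt
  rw [Finset.sum_comm, Finset.mul_sum]
  refine Finset.sum_congr rfl fun κ _ => ?_
  rw [← Finset.mul_sum, cnt_sum, mul_comm]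

theorem mlt_add (s t : (Fin a → J) → ℕ) : mlt (s + t) = mlt s + mlt t := by
  funext j
  simp only [mlt, Pi.add_apply, add_mul, Finset.sum_add_distrib]

theorem mlt_mono {s t : (Fin a → J) → ℕ} (h : s ≤ t) : mlt s ≤ mlt t := by
  intro j
  exact Finset.sum_le_sum fun κ _ => Nat.mul_le_mul_right _ (h κ)

theorem mlt_sub {s t : (Fin a → J) → ℕ} (h : t ≤ s) : mlt (s - t) = mlt s - mlt t := by
  have h1 : s - t + t = s := tsub_add_cancel_of_le h
  have h2 := mlt_add (s - t) t
  rw [h1] at h2
  rw [h2]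
  funext j
  simp

theorem prod_cnt {R : Type} [CommMonoid R] (f : J → R) (κ : Fin a → J) :
    ∏ i, f (κ i) = ∏ j, f j ^ cnt κ j := by
  simp only [cnt, ← Finset.prod_pow_eq_pow_sum]
  rw [Finset.prod_comm]
  refine Finset.prod_congr rfl fun i _ => ?_
  rw [Finset.prod_eq_single (κ i)]
  · simp
  · intro j _ hj
    rw [if_neg (Ne.symm hj), pow_zero]
  · simp

theorem prod_mlt {R : Type} [CommMonoid R] (f : J → R) (s : (Fin a → J) → ℕ) :
    ∏ κ, (∏ i, f (κ i)) ^ s κ = ∏ j, f j ^ mlt s j := by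
  simp only [mlt, ← Finset.prod_pow_eq_pow_sum]
  rw [Finset.prod_comm]
  refine Finset.prod_congr rfl fun κ _ => ?_
  rw [prod_cnt, ← Finset.prod_pow]
  refine Finset.prod_congr rfl fun j _ => ?_
  rw [← pow_mul, mul_comm]

/-- the multisets of `m` words with the multiplicities `u` -/
def fib (a : ℕ) (m : ℕ) (u : J → ℕ) : Finset ((Fin a → J) → ℕ) :=
  (Finset.piAntidiag univ m).filter fun s => mlt s = u

theorem mem_fib {m : ℕ} {u : J → ℕ} {s : (Fin a → J) → ℕ} :
    s ∈ fib a m u ↔ ∑ κ, s κ = m ∧ mlt s = u := by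
  unfold fib
  rw [Finset.mem_filter, Finset.mem_piAntidiag]
  simp

theorem sum_fib (m : ℕ) (u : J → ℕ) (hu : ∑ j, u j = a * m) :
    ∑ s ∈ fib a m u, Nat.multinomial univ s = Nat.multinomial univ u := by
  have key : (∑ j : J, (MvPolynomial.X j : MvPolynomial J ℕ)) ^ (a * m) =
      (∑ κ : Fin a → J, ∏ i, (MvPolynomial.X (κ i) : MvPolynomial J ℕ)) ^ m := by
    rw [pow_mul, Fintype.sum_pow]
  have hmon : ∀ v : J → ℕ, ∏ j, (MvPolynomial.X j : MvPolynomial J ℕ) ^ v j =
      MvPolynomial.monomial (Finsupp.equivFunOnFinite.symm v) 1 := by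
    intro v
    rw [MvPolynomial.monomial_eq, map_one, one_mul, Finsupp.prod_fintype _ _ fun i => pow_zero _]
    rfl
  rw [Finset.sum_pow_eq_sum_piAntidiag, Finset.sum_pow_eq_sum_piAntidiag] at key
  simp only [prod_mlt, hmon] at key
  have h2 := congrArg (MvPolynomial.coeff (Finsupp.equivFunOnFinite.symm u)) key
  have hcast : ∀ (n : ℕ) (v : J →₀ ℕ), MvPolynomial.coeff (Finsupp.equivFunOnFinite.symm u)
      ((n : MvPolynomial J ℕ) * MvPolynomial.monomial v 1) =
      if v = Finsupp.equivFunOnFinite.symm u then n else 0 := by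
    intro n v
    rw [← map_natCast (MvPolynomial.C : ℕ →+* MvPolynomial J ℕ), MvPolynomial.coeff_C_mul,
      MvPolynomial.coeff_monomial]
    simp
  simp only [MvPolynomial.coeff_sum, hcast, EmbeddingLike.apply_eq_iff_eq] at h2
  rw [← Finset.sum_filter, ← Finset.sum_filter] at h2
  rw [fib, ← h2]
  refine Finset.sum_eq_single_of_mem u ?_ ?_
  · rw [Finset.mem_filter, Finset.mem_piAntidiag]
    exact ⟨⟨hu, fun _ _ => Finset.mem_univ _⟩, rfl⟩
  · intro v hv hvu
    exact absurd (Finset.mem_filter.1 hv).2 hvu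

/-- the sums with falling factorials -/
theorem sum_fib_fd (m : ℕ) (u : J → ℕ) (b : (Fin a → J) → ℕ) (hu : ∑ j, u j = a * m) :
    (a * m).descFactorial (a * ∑ κ, b κ) * ∑ s ∈ fib a m u, Nat.multinomial univ s * fd s b =
      m.descFactorial (∑ κ, b κ) * (Nat.multinomial univ u * fd u (mlt b)) := by
  classical
  by_cases hle : mlt b ≤ u
  · by_cases hm : ∑ κ, b κ ≤ m
    · have h1 : ∑ s ∈ fib a m u, Nat.multinomial univ s * fd s b =
          m.descFactorial (∑ κ, b κ) *
            ∑ s ∈ fib a (m - ∑ κ, b κ) (u - mlt b), Nat.multinomial univ s := by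
        rw [Finset.mul_sum]
        have h2 : ∑ s ∈ fib a m u, Nat.multinomial univ s * fd s b =
            ∑ s ∈ (fib a m u).filter (fun s => b ≤ s), Nat.multinomial univ s * fd s b := by
          rw [Finset.sum_filter]
          refine Finset.sum_congr rfl fun s _ => ?_
          split_ifs with h
          · rfl
          · rw [fd_eq_zero h, mul_zero]
        rw [h2]
        refine Finset.sum_bij' (fun s _ => s - b) (fun s _ => s + b) ?_ ?_ ?_ ?_ ?_
        · intro s hs
          obtain ⟨h3, h4⟩ := Finset.mem_filter.1 hs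
          obtain ⟨h5, h6⟩ := mem_fib.1 h3
          rw [mem_fib, sum_sub' h4, mlt_sub h4, h5, h6]
          exact ⟨rfl, rfl⟩
        · intro s hs
          obtain ⟨h5, h6⟩ := mem_fib.1 hs
          rw [Finset.mem_filter, mem_fib, mlt_add, h6]
          refine ⟨⟨?_, tsub_add_cancel_of_le hle⟩, ?_⟩
          · simp only [Pi.add_apply, Finset.sum_add_distrib, h5]
            omega
          · intro κ
            exact Nat.le_add_left _ _
        · intro s hs
          exact tsub_add_cancel_of_le (Finset.mem_filter.1 hs).2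
        · intro s _
          exact add_tsub_cancel_right s b
        · intro s hs
          obtain ⟨h3, h4⟩ := Finset.mem_filter.1 hs
          rw [mult_fd h4, (mem_fib.1 h3).1]
      have h3 : ∑ j, (u - mlt b) j = a * (m - ∑ κ, b κ) := by
        rw [sum_sub' hle, hu, mlt_sum, Nat.mul_sub]
      rw [h1, sum_fib _ _ h3, mult_fd hle, hu, mlt_sum]
      ring
    · have h1 : m.descFactorial (∑ κ, b κ) = 0 := by
        rw [Nat.descFactorial_eq_zero_iff_lt]
        omega
      rw [h1, zero_mul]
      have h2 : ∑ s ∈ fib a m u, Nat.multinomial univ s * fd s b = 0 := by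
        refine Finset.sum_eq_zero fun s hs => ?_
        rw [fd_eq_zero, mul_zero]
        intro h
        apply hm
        rw [← (mem_fib.1 hs).1]
        exact Finset.sum_le_sum fun κ _ => h κ
      rw [h2, mul_zero]
  · rw [fd_eq_zero hle, mul_zero, mul_zero]
    have h2 : ∑ s ∈ fib a m u, Nat.multinomial univ s * fd s b = 0 := by
      refine Finset.sum_eq_zero fun s hs => ?_
      rw [fd_eq_zero, mul_zero]
      intro h
      apply hle
      rw [← (mem_fib.1 hs).2]
      exact mlt_mono h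
    rw [h2, mul_zero]

/-- the polynomial `∏ (X - i)` over the `i < a k` which are not divisible by `a` -/
noncomputable def cpol (a k : ℕ) : Polynomial ℂ :=
  ∏ i ∈ (range (a * k)).filter (fun i => ¬ a ∣ i), (Polynomial.X - Polynomial.C (i : ℂ))

theorem cpol_eval_ne (k : ℕ) (α : ℂ) (h : ∀ n : ℕ, α ≠ n) : (cpol a k).eval α ≠ 0 := by
  rw [cpol, Polynomial.eval_prod, Finset.prod_ne_zero_iff]
  intro i _
  rw [Polynomial.eval_sub, Polynomial.eval_X, Polynomial.eval_C]
  exact sub_ne_zero.2 (h i)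

theorem cast_desc (n k : ℕ) : ((n.descFactorial k : ℕ) : ℂ) = ∏ i ∈ range k, ((n : ℂ) - i) := by
  induction k with
  | zero => simp
  | succ k ih =>
    rw [Nat.descFactorial_succ, Finset.prod_range_succ, ← ih, Nat.cast_mul]
    rcases le_or_gt k n with h | h
    · rw [Nat.cast_sub h]
      ring
    · rw [Nat.descFactorial_eq_zero_iff_lt.2 h]
      simp

theorem desc_cpol (ha : 1 ≤ a) (m k : ℕ) : (((a * m).descFactorial (a * k) : ℕ) : ℂ) =
    (cpol a k).eval ((a * m : ℕ) : ℂ) * (a : ℂ) ^ k * ((m.descFactorial k : ℕ) : ℂ) := by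
  rw [cast_desc, cast_desc, ← Finset.prod_filter_not_mul_prod_filter (range (a * k))
    (fun i => a ∣ i), mul_assoc]
  congr 1
  · rw [cpol, Polynomial.eval_prod]
    refine Finset.prod_congr rfl fun i _ => ?_
    rw [Polynomial.eval_sub, Polynomial.eval_X, Polynomial.eval_C]
  · have h1 : (range (a * k)).filter (fun i => a ∣ i) = (range k).image (fun l => a * l) := by
      ext i
      simp only [Finset.mem_filter, Finset.mem_range, Finset.mem_image]
      constructor
      · rintro ⟨h1, l, rfl⟩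
        exact ⟨l, lt_of_mul_lt_mul_left h1 (Nat.zero_le _), rfl⟩
      · rintro ⟨l, hl, rfl⟩
        exact ⟨Nat.mul_lt_mul_of_pos_left hl (by omega), dvd_mul_right _ _⟩
    rw [h1, Finset.prod_image (fun x _ y _ h => Nat.eq_of_mul_eq_mul_left (by omega) h)]
    have h2 : (a : ℂ) ^ k = ∏ _l ∈ range k, (a : ℂ) := by simp
    rw [h2, ← Finset.prod_mul_distrib]
    refine Finset.prod_congr rfl fun l _ => ?_
    push_cast
    ring

/-- the sums with falling factorials, in the final form -/
theorem sum_fib_cpol (ha : 1 ≤ a) (m : ℕ) (u : J → ℕ) (b : (Fin a → J) → ℕ)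
    (hu : ∑ j, u j = a * m) :
    (cpol a (∑ κ, b κ)).eval ((a * m : ℕ) : ℂ) * (a : ℂ) ^ (∑ κ, b κ) *
      ((∑ s ∈ fib a m u, Nat.multinomial univ s * fd s b : ℕ) : ℂ) =
      ((Nat.multinomial univ u * fd u (mlt b) : ℕ) : ℂ) := by
  have h1 := sum_fib_fd m u b hu
  by_cases h : m.descFactorial (∑ κ, b κ) = 0
  · have hm : m < ∑ κ, b κ := Nat.descFactorial_eq_zero_iff_lt.1 h
    have h2 : ∑ s ∈ fib a m u, Nat.multinomial univ s * fd s b = 0 := by
      refine Finset.sum_eq_zero fun s hs => ?_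
      rw [fd_eq_zero, mul_zero]
      intro h
      apply not_le.2 hm
      rw [← (mem_fib.1 hs).1]
      exact Finset.sum_le_sum fun κ _ => h κ
    have h3 : fd u (mlt b) = 0 := by
      apply fd_eq_zero
      intro h
      have h4 : ∑ j, mlt b j ≤ ∑ j, u j := Finset.sum_le_sum fun j _ => h j
      rw [mlt_sum, hu] at h4
      have h5 := Nat.le_of_mul_le_mul_left h4 (by omega)
      omega
    rw [h2, h3, mul_zero, Nat.cast_zero, mul_zero]
  · have h2 : ((m.descFactorial (∑ κ, b κ) : ℕ) : ℂ) ≠ 0 := Nat.cast_ne_zero.2 h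
    apply mul_left_cancel₀ h2
    have h3 := congrArg (Nat.cast : ℕ → ℂ) h1
    rw [Nat.cast_mul, desc_cpol ha, Nat.cast_mul (m.descFactorial (∑ κ, b κ))] at h3
    rw [← h3]
    ring

end

end Pool.Agent.Q92.QT
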