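import Pool.Agent.Y229.SP1
import Pool.Agent.Q92.QT.Num

/-!
# Project QT (helper57), job R1, part 1: the functions `[s]_b Q f ^ (s - b + e)`
-/

set_option autoImplicit false

namespace Pool.Agent.Q92.QT

open MvPolynomial Pool.Agent.W574.SM Pool.Agent.W574.HS Pool.Agent.W574.RO Pool.Agent.Y229

section

variable {σ ι : Type} [Fintype ι]

/-- the function `[s]_b Q f ^ (s - b + e)` -/
noncomputable def Tf (f : ι → MvPolynomial σ ℂ) (Q : weyl σ) (b e : ι → ℕ) : AF σ ι :=
  fun s => (fd s b : ℂ) • (Q : Module.End ℂ (MvPolynomial σ ℂ)) (∏ j, f j ^ (s j - b j + e j))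

variable [DecidableEq ι]

theorem fd_add_single (s b : ι → ℕ) (j : ι) :
    fd s (b + Pi.single j 1) = fd s b * (s j - b j) := by
  unfold fd
  rw [← Finset.mul_prod_erase _ _ (Finset.mem_univ j),
    ← Finset.mul_prod_erase _ (fun j => (s j).descFactorial (b j)) (Finset.mem_univ j)]
  have h1 : ∏ x ∈ Finset.univ.erase j, (s x).descFactorial ((b + Pi.single j 1 : ι → ℕ) x) =
      ∏ x ∈ Finset.univ.erase j, (s x).descFactorial (b x) := by
    refine Finset.prod_congr rfl fun x hx => ?_
    rw [Pi.add_apply, Pi.single_eq_of_ne (Finset.ne_of_mem_erase hx), add_zero]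
  rw [h1, Pi.add_apply, Pi.single_eq_same, Nat.descFactorial_succ]
  ring

theorem Tf_add_single (f : ι → MvPolynomial σ ℂ) (Q : weyl σ) (b e : ι → ℕ) (j : ι) (s : ι → ℕ) :
    Tf f Q (b + Pi.single j 1) (e + Pi.single j 1) s =
      ((s j : ℂ) - (b j : ℂ)) • Tf f Q b e s := by
  unfold Tf
  rw [fd_add_single]
  by_cases h0 : fd s b = 0
  · rw [h0, zero_mul, Nat.cast_zero, zero_smul, zero_smul, smul_zero]
  have h1 := fd_ne h0 j
  rcases h1.lt_or_eq with h2 | h2
  · have h3 : ∏ x, f x ^ (s x - (b + Pi.single j 1 : ι → ℕ) x + (e + Pi.single j 1 : ι → ℕ) x) =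
        ∏ x, f x ^ (s x - b x + e x) := by
      refine Finset.prod_congr rfl fun x _ => ?_
      congr 1
      rw [Pi.add_apply, Pi.add_apply]
      by_cases hx : x = j
      · subst hx
        rw [Pi.single_eq_same]
        omega
      · rw [Pi.single_eq_of_ne hx]
        omega
    rw [h3, smul_smul, Nat.cast_mul, Nat.cast_sub h1, mul_comm]
  · rw [h2, Nat.sub_self, mul_zero, Nat.cast_zero, zero_smul, sub_self, zero_smul]

omit [Fintype ι] [DecidableEq ι] in
theorem smulj_linear (j : ι) : IsLinearMap ℂ (fun (F : AF σ ι) (s : ι → ℕ) => (s j : ℂ) • F s) where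
  map_add F G := by
    funext s
    rw [Pi.add_apply, Pi.add_apply, smul_add]
  map_smul r F := by
    funext s
    rw [Pi.smul_apply, Pi.smul_apply, smul_comm]

theorem V_smulj (f : ι → MvPolynomial σ ℂ) (m : ℤ) (j : ι) {F : AF σ ι} (hF : F ∈ V f m) :
    (fun s => (s j : ℂ) • F s) ∈ V f m := by
  induction hF using Submodule.span_induction with
  | mem F h =>
    obtain ⟨P, c, hc, rfl⟩ := h
    have : (fun s => (s j : ℂ) • gen f P c s) = gen f (shj j P) c := by
      funext s
      rw [gen, gen, applyAt_shj]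
    rw [this]
    exact gen_mem f _ _ hc
  | zero =>
    have := (smulj_linear (σ := σ) j).map_zero
    rw [this]
    exact Submodule.zero_mem _
  | add F G _ _ hF hG =>
    have := (smulj_linear (σ := σ) j).map_add F G
    rw [this]
    exact Submodule.add_mem _ hF hG
  | smul r F _ hF =>
    have := (smulj_linear (σ := σ) j).map_smul r F
    rw [this]
    exact Submodule.smul_mem _ _ hF

omit [DecidableEq ι] in
theorem Tf_eq_gen (f : ι → MvPolynomial σ ℂ) (Q : weyl σ) (b e : ι → ℕ)
    (h : ∀ j, b j = 0 ∨ e j = 0) :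
    Tf f Q b e = (((∏ j, (b j).factorial : ℕ) : ℂ)) •
      gen f (Finsupp.single 0 Q) (fun j => (e j : ℤ) - b j) := by
  classical
  funext s
  rw [Pi.smul_apply, gen, applyAt_single]
  have h1 : ∀ g : MvPolynomial σ ℂ, (∏ j, (s j : ℂ) ^ (0 : ι →₀ ℕ) j) •
      (Q : Module.End ℂ (MvPolynomial σ ℂ)) g = (Q : Module.End ℂ (MvPolynomial σ ℂ)) g := by
    intro g
    simp
  rw [h1, gterm, C_mul', map_smul, smul_smul, Tf]
  have h2 : fd s b = (∏ j, (b j).factorial) *
      ∏ j, (if ((e j : ℤ) - b j) < 0 then (s j).choose (-((e j : ℤ) - b j)).toNat else 1) := by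
    rw [fd, ← Finset.prod_mul_distrib]
    refine Finset.prod_congr rfl fun j _ => ?_
    rcases h j with h3 | h3
    · rw [h3, if_neg (by omega)]
      simp
    · rw [h3]
      rcases Nat.eq_zero_or_pos (b j) with h4 | h4
      · rw [h4]
        simp
      · rw [if_pos (by omega), Nat.descFactorial_eq_factorial_mul_choose]
        congr 2
        omega
  rw [← Nat.cast_mul, ← h2]
  by_cases h0 : fd s b = 0
  · rw [h0, Nat.cast_zero, zero_smul, zero_smul]
  congr 2
  refine Finset.prod_congr rfl fun j _ => ?_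
  congr 1
  have := fd_ne h0 j
  omega

theorem Tf_mem (f : ι → MvPolynomial σ ℂ) (Q : weyl σ) : ∀ (n : ℕ) (b e : ι → ℕ), ∑ j, b j = n →
    ∀ m : ℤ, (∑ j, (e j : ℤ)) - ∑ j, (b j : ℤ) = m → Tf f Q b e ∈ V f m := by
  intro n
  induction n with
  | zero =>
    intro b e hb m hm
    rw [Tf_eq_gen f Q b e (fun j => Or.inl ((Finset.sum_eq_zero_iff.1 hb) j (Finset.mem_univ j)))]
    refine Submodule.smul_mem _ _ (gen_mem f _ _ ?_)
    rw [Finset.sum_sub_distrib, hm]
  | succ n ih =>
    intro b e hb m hm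
    by_cases h : ∀ j, b j = 0 ∨ e j = 0
    · rw [Tf_eq_gen f Q b e h]
      refine Submodule.smul_mem _ _ (gen_mem f _ _ ?_)
      rw [Finset.sum_sub_distrib, hm]
    · push Not at h
      obtain ⟨j, hj1, hj2⟩ := h
      obtain ⟨b', hb'⟩ : ∃ b' : ι → ℕ, b = b' + Pi.single j 1 := by
        refine ⟨b - Pi.single j 1, ?_⟩
        funext x
        rw [Pi.add_apply, Pi.sub_apply]
        by_cases hx : x = j
        · subst hx
          rw [Pi.single_eq_same]
          omega
        · rw [Pi.single_eq_of_ne hx]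
          omega
      obtain ⟨e', he'⟩ : ∃ e' : ι → ℕ, e = e' + Pi.single j 1 := by
        refine ⟨e - Pi.single j 1, ?_⟩
        funext x
        rw [Pi.add_apply, Pi.sub_apply]
        by_cases hx : x = j
        · subst hx
          rw [Pi.single_eq_same]
          omega
        · rw [Pi.single_eq_of_ne hx]
          omega
      subst hb' he'
      have hs : ∀ c : ι → ℕ, ∑ x, (c + Pi.single j 1 : ι → ℕ) x = ∑ x, c x + 1 := by
        intro c
        simp only [Pi.add_apply, Finset.sum_add_distrib, Finset.sum_pi_single', Finset.mem_univ,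
          if_true]
      have hs' : ∀ c : ι → ℕ, ∑ x, (((c + Pi.single j 1 : ι → ℕ) x : ℕ) : ℤ) =
          ∑ x, (c x : ℤ) + 1 := by
        intro c
        have := hs c
        exact_mod_cast this
      have h1 := ih b' e' (by have := hs b'; omega) m (by
        have h2 := hs' b'
        have h3 := hs' e'
        rw [h2, h3] at hm
        linarith)
      have h4 : Tf f Q (b' + Pi.single j 1) (e' + Pi.single j 1) =
          (fun s => (s j : ℂ) • Tf f Q b' e' s) - (b' j : ℂ) • Tf f Q b' e' := by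
        funext s
        rw [Tf_add_single, Pi.sub_apply, Pi.smul_apply, sub_smul]
      rw [h4]
      exact Submodule.sub_mem _ (V_smulj f m j h1) (Submodule.smul_mem _ _ h1)

/-- the span of the functions `Tf` -/
noncomputable def Ws (f : ι → MvPolynomial σ ℂ) (m : ℤ) : Submodule ℂ (AF σ ι) :=
  Submodule.span ℂ {F | ∃ Q b e, (∑ j, (e j : ℤ)) - ∑ j, (b j : ℤ) = m ∧ F = Tf f Q b e}

omit [DecidableEq ι] in
theorem Tf_memW (f : ι → MvPolynomial σ ℂ) (Q : weyl σ) (b e : ι → ℕ) {m : ℤ}
    (h : (∑ j, (e j : ℤ)) - ∑ j, (b j : ℤ) = m) : Tf f Q b e ∈ Ws f m :=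
  Submodule.subset_span ⟨Q, b, e, h, rfl⟩

theorem Ws_smulj (f : ι → MvPolynomial σ ℂ) (m : ℤ) (j : ι) {F : AF σ ι} (hF : F ∈ Ws f m) :
    (fun s => (s j : ℂ) • F s) ∈ Ws f m := by
  induction hF using Submodule.span_induction with
  | mem F h =>
    obtain ⟨Q, b, e, hc, rfl⟩ := h
    have : (fun s => (s j : ℂ) • Tf f Q b e s) = Tf f Q (b + Pi.single j 1) (e + Pi.single j 1) +
        (b j : ℂ) • Tf f Q b e := by
      funext s
      rw [Pi.add_apply, Tf_add_single, Pi.smul_apply, ← add_smul, sub_add_cancel]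
    rw [this]
    refine Submodule.add_mem _ (Tf_memW f _ _ _ ?_) (Submodule.smul_mem _ _ (Tf_memW f _ _ _ hc))
    rw [← hc]
    simp only [Pi.add_apply, Nat.cast_add, Finset.sum_add_distrib]
    ring
  | zero =>
    have := (smulj_linear (σ := σ) j).map_zero
    rw [this]
    exact Submodule.zero_mem _
  | add F G _ _ hF hG =>
    have := (smulj_linear (σ := σ) j).map_add F G
    rw [this]
    exact Submodule.add_mem _ hF hG
  | smul r F _ hF =>
    have := (smulj_linear (σ := σ) j).map_smul r F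
    rw [this]
    exact Submodule.smul_mem _ _ hF

theorem Ws_smulpow (f : ι → MvPolynomial σ ℂ) (m : ℤ) (j : ι) (n : ℕ) {F : AF σ ι}
    (hF : F ∈ Ws f m) : (fun s => (s j : ℂ) ^ n • F s) ∈ Ws f m := by
  induction n with
  | zero => simpa using hF
  | succ n ih =>
    have := Ws_smulj f m j ih
    simpa only [pow_succ', mul_smul] using this

theorem Ws_smulmon (f : ι → MvPolynomial σ ℂ) (m : ℤ) (β : ι → ℕ) {F : AF σ ι}
    (hF : F ∈ Ws f m) (S : Finset ι) : (fun s => (∏ j ∈ S, (s j : ℂ) ^ β j) • F s) ∈ Ws f m := by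
  induction S using Finset.induction_on with
  | empty => simpa using hF
  | insert j S hj ih =>
    have := Ws_smulpow f m j (β j) ih
    simpa only [Finset.prod_insert hj, mul_smul] using this

theorem V_le_Ws (f : ι → MvPolynomial σ ℂ) (m : ℤ) : V f m ≤ Ws f m := by
  classical
  refine Submodule.span_le.2 ?_
  rintro F ⟨P, c, hc, rfl⟩
  have h1 : gen f P c = ∑ β ∈ P.support, fun s => (∏ j, (s j : ℂ) ^ β j) •
      ((P β : weyl σ) : Module.End ℂ (MvPolynomial σ ℂ)) (gterm f c s) := by
    funext s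
    rw [Finset.sum_apply]
    rfl
  rw [h1]
  refine Submodule.sum_mem _ fun β _ => Ws_smulmon f m β ?_ Finset.univ
  set b : ι → ℕ := fun j => (-c j).toNat with hb
  set e : ι → ℕ := fun j => (c j).toNat with he
  have h2 := Tf_eq_gen f (P β) b e (fun j => by simp only [hb, he]; omega)
  have h3 : (fun j => (e j : ℤ) - b j) = c := by
    funext j
    simp only [hb, he]
    omega
  rw [h3] at h2
  have h4 : (((∏ j, (b j).factorial : ℕ) : ℂ)) ≠ 0 :=
    Nat.cast_ne_zero.2 (Finset.prod_ne_zero_iff.2 fun j _ => Nat.factorial_ne_zero _)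
  have h5 : (fun s => ((P β : weyl σ) : Module.End ℂ (MvPolynomial σ ℂ)) (gterm f c s)) =
      (((∏ j, (b j).factorial : ℕ) : ℂ))⁻¹ • Tf f (P β) b e := by
    rw [h2, smul_smul, inv_mul_cancel₀ h4, one_smul]
    funext s
    rw [gen, applyAt_single]
    simp
  rw [h5]
  refine Submodule.smul_mem _ _ (Tf_memW f _ _ _ ?_)
  rw [← Finset.sum_sub_distrib, ← hc]
  exact Finset.sum_congr rfl fun j _ => congrFun h3 j

end

end Pool.Agent.Q92.QT
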